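import Pool.Agent.Lib.MP_12eaff_co.FC.Loc
import Pool.Agent.Lib.MP_12eaff_co.FC.Loc2
import Pool.Agent.Lib.MP_12eaff_co.Acc2.AD2
import Pool.Agent.Lib.MP_12eaff_co.G.Ifc

set_option autoImplicit false
set_option linter.unusedSectionVars false

namespace Pool.Agent.Lib.MP_12eaff_co.FB

open Finset Pool.Agent.Lib.MP_12eaff_co.BK Pool.Agent.Lib.MP_12eaff_co.Acc2
open scoped Classical

variable {V : Type} [Fintype V] {G : SimpleGraph V} {D : ℕ}
variable {T : Tr G D} {Y W : Finset V} {q y x z e u : V}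

open Tr IsA

theorem jm_Zc (T : Tr G D) (y : V) : jm T y = Zc T y := filter_mem_eq_inter.symm

/-- Charged `t` and clean tails. -/
noncomputable def tj (T : Tr G D) (y : V) : ℕ :=
  (T.tE (Cm T) (O0 T) y).card + (jm T y).card

namespace IsC

theorem ex2_one (h : IsC T) (hu : u ∈ T.R) (he : e ∈ T.R) {Z : Finset V} (cl : IsClq G Z) :
    (Z.filter (Ex2 T u e)).card ≤ 1 := card_le_one.2 fun x hx y hy => by
  obtain ⟨x1, m, m1, -, m0, m2, m3, -⟩ := mem_filter.1 hx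
  obtain ⟨y1, m', n1, -, n0, n2, n3, -⟩ := mem_filter.1 hy
  have b : ∀ m ∈ T.H u, T.Anc m e → T.d u ≤ T.d m → T.col u m = T.c m := fun m k r d =>
    col_base hu r.real fun z => (T.mem_H.1 k).1.ne (z.eq_of_d d).symm
  exact clq_ne he cl x1 y1 (by
    rw [← m3, ← n3, ← b m m1 m0 m2, ← b m' n1 n0 n2,
      h.Bd_col hu (h.H_Bd hu m0.mem.1 m1) (h.H_Bd hu n0.mem.1 n1)])

/-- EVENT: a prober that is not below sees all clean tails but two. -/
theorem ev (h : IsC T) (nt : T.NoTix) (hu : u ∈ T.R) (he : e ∈ T.R) (ho : u ∈ T.O e)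
    (n : ¬ T.Anc u e) (nz : e ∉ jm T u) :
    (jm T u).card ≤ ((jm T u).filter (G.Adj e)).card + 2 := by
  rw [jm_Zc] at nz ⊢
  have a := T.O_adj e he u ho
  have cl := h.Zc_clq h.ns hu
  have hZ : ∀ w ∈ Zc T u, ¬ Uq G (T.col e) w u →
      ¬ Uq G (T.col e) u w ∨ Ex2 T u e w ∨ ExP T u e w := fun w k s =>
    h.entry_gen hu (Zc_W k) (Zc_pr k) n (fun y => T.ch y ≠ ∅ ∨ T.c y ≠ T.col w u)
      (fun y m p hy => h.cover2 (Zc_R k) (Zc_pr k) (mem_WQ.1 (mem_Zc.1 k).1).2.2.2.1 (Zc_nq k) hy p)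
      (fun _ _ p _ => .inl (ne_empty_of_mem p)) (.refl e he) (.inr (by
        rw [(mem_W.1 (Zc_W k)).2.2.2.1, ← T.col_r]
        exact T.prop _ T.r_mem e u a)) s
  have h1 := h.W_exc hu he a.symm (h.probe_tight he ho) (A := ∅)
    (fun z p κ l k => absurd k (nt z p.mem.1 u hu κ l))
    (Z := (Zc T u).filter fun w => ¬ Uq G (T.col e) u w ∨ ExP T u e w)
    (X := ∅) (fun x p y q => cl x (mem_filter.1 p).1 y (mem_filter.1 q).1) (fun w k =>
      have p := Zc_W (mem_filter.1 k).1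
      ⟨(mem_W.1 p).1, W_real hu p, (mem_filter.1 k).2⟩) (by simp)
  have h2 := h.ex2_one hu he cl
  have s : Zc T u ⊆ (Zc T u).filter (G.Adj e) ∪ (((Zc T u).filter fun w =>
      ¬ Uq G (T.col e) u w ∨ ExP T u e w) ∪ (Zc T u).filter (Ex2 T u e)) := fun w p => by
    have k1 := hZ w p
    have k2 := h.probe_adj he ho (mem_W.1 (Zc_W p)).1 (fun z => nz (z ▸ p)) (T.real w (Zc_R p))
    simp only [mem_union, mem_filter]
    tauto
  have := (card_le_card s).trans ((card_union_le _ _).trans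
    (Nat.add_le_add_left (card_union_le _ _) _))
  simp only [card_empty] at h1
  omega

/-- A charged `t` leaves at most three clean tails. -/
theorem t_few (h : IsC T) (nt : T.NoTix) (hu : u ∈ T.R) :
    tj T u = (jm T u).card ∨ tj T u = (jm T u).card + 1 ∧ (jm T u).card ≤ 3 := by
  have c := card_tE (Ct := Cm T) (Use := O0 T) hu
  unfold tj
  rcases (T.tE (Cm T) (O0 T) u).eq_empty_or_nonempty with k | ⟨e, k⟩
  · rw [k, card_empty, zero_add]
    exact .inl rfl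
  have := card_pos.2 ⟨e, k⟩
  obtain ⟨⟨k1, k2, k3⟩, k4⟩ := mem_tE.1 k
  obtain ⟨o, nc⟩ := T.mem_NT.1 k1
  have hq := T.p_mem u hu k2.1.1
  have na := h.t_nadj2 hu o k2 k4
  have := h.ev nt hu (T.clo u hu e o).1 k4 (nanc_of_O hu o nc)
    fun z => na (T.O_adj _ hq e (mem_W.1 (jm_W z).1).2.2.1)
  have : ((jm T u).filter (G.Adj e)).card ≤ 1 := card_le_one.2 fun a p b q =>
    (h.exit_one3' hu o (h.ns _ _) (h.ns _ _) (.inl na) (jm_W (mem_filter.1 p).1).1
      (jm_W (mem_filter.1 q).1).1 (mem_filter.1 p).2 (mem_filter.1 q).2).resolve_right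
      fun z => k3 (z.pt hq).hasQ
  omega

end IsC

namespace Fam

/-- A loud child of the owner has few clean tails. -/
theorem loud_few (h : IsC T) (nt : T.NoTix) (f : Fam T Y W q) (hy : y ∈ T.ch q) (m : y ∈ Y ∪ W)
    (l : Loud T (Y ∪ W) y) (s : jm T y ⊆ Y ∪ W) : tj T y ≤ 4 := by
  obtain ⟨z, hz, zH, pz, ny⟩ := l
  have y1 := (T.mem_ch.1 hy).1
  have f2 := (h.far2 hz f.clq f.kreal (f.kout zH) (f.kfar hz zH)).2
  rw [← card_erase_add_one (mem_filter.2 ⟨mem_insert_of_mem (f.chq hy m).1, T.O_adj z hz y pz⟩ :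
    y ∈ (insert q Y).filter (G.Adj z))] at f2
  have := h.ev nt y1 hz pz ny fun k => zH (s k)
  have : ((jm T y).filter (G.Adj z)).card ≤ (((insert q Y).filter (G.Adj z)).erase y).card :=
    card_le_card fun w k =>
      have p := jm_W (mem_filter.1 k).1
      mem_erase.2 ⟨(mem_W.1 p.1).1.ne.symm, mem_filter.2
        ⟨f.sub (W_mem y1 p.1) (s (mem_filter.1 k).1), (mem_filter.1 k).2⟩⟩
  have := h.t_few nt y1
  omega

/-- PAIR: a child of a child of the owner. -/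
theorem pair (h : IsC T) (nt : T.NoTix) (f : Fam T Y W q) (hD : 14 ≤ D) (hy : y ∈ T.ch q)
    (m : y ∈ Y ∪ W) (s : jm T y ⊆ Y ∪ W) (hx : x ∈ T.ch y) :
    tj T x + (jm T y).card ≤ (T.O y).card := by
  obtain ⟨y1, y2, rfl⟩ := T.mem_ch.1 hy
  obtain ⟨x1, -, x3⟩ := T.mem_ch.1 hx
  obtain ⟨yY, yo⟩ := f.chq hy m
  have xH := (f.giver h hD hy m hx).1
  have g : (T.tE (MT T) (O0 T) x).card + (Zc T x ∩ Zc T y).card ≤ 1 := by
    by_cases o : x ∈ T.O y
    swap
    · simp [(pass_Z hx o).1, (pass_Z hx o).2]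
    by_cases a : G.Adj x (T.p y)
    · have f2 := (h.far2 x1 f.clq f.kreal (f.kout xH) (f.kfar x1 xH)).2
      have b1 : y ∈ (insert (T.p y) Y).filter (G.Adj x) :=
        mem_filter.2 ⟨mem_insert_of_mem yY, (T.O_adj y y1 x o).symm⟩
      have b2 : T.p y ∈ ((insert (T.p y) Y).filter (G.Adj x)).erase y :=
        mem_erase.2 ⟨p_ne y1 y2, mem_filter.2 ⟨mem_insert_self _ _, a⟩⟩
      rw [← card_erase_add_one b1, ← card_erase_add_one b2] at f2
      have : (Zc T x ∩ Zc T y).card ≤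
          ((((insert (T.p y) Y).filter (G.Adj x)).erase y).erase (T.p y)).card :=
        card_le_card fun w k =>
          have p := mem_inter.1 k
          mem_erase.2 ⟨O_ne_p y1 (Zc_O p.2), mem_erase.2 ⟨(mem_W.1 (Zc_W p.2)).1.ne.symm,
            mem_filter.2 ⟨f.sub (Zc_R p.2) (s (jm_Zc T y ▸ p.2)), (mem_W.1 (Zc_W p.1)).1⟩⟩⟩
      rw [(h.inner_t hx y2 a).2, card_empty]
      omega
    · rw [eq_empty_of_forall_notMem (s := Zc T x ∩ Zc T y) fun w p => by
        obtain ⟨p1, p2⟩ := mem_inter.1 p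
        refine h.xch p2 (anc_ch hx) (fun m a b c => ?_) (fun z => nt x x1 _ f.hq _
          (T.lt _ f.hq w (Zc_Oq p2)) (z.port f.hq (Zc_Oq p2) rfl)) a (Zc_O p1)
        rw [between hx a b c]
        exact iff_of_true (mem_W.1 (Zc_W p2)).1.symm (h.adj_par y1 y2 yo)]
      exact card_tE x1
  have := pair_O hx (E := ∅) (by simp) (by simp) (by simp) g
  rw [tj, jm_Zc, jm_Zc]
  exact this

end Fam

end Pool.Agent.Lib.MP_12eaff_co.FB
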