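import Pool.Agent.Lib.MP_12eaff_co.FD.Ev
import Pool.Agent.Lib.MP_12eaff_co.FC.Evt

set_option autoImplicit false
set_option linter.unusedSectionVars false

namespace Pool.Agent.Lib.MP_12eaff_co.FB

open Finset Pool.Agent.Lib.MP_12eaff_co.BK Pool.Agent.Lib.MP_12eaff_co.Acc2
open scoped Classical

variable {V : Type} [Fintype V] {G : SimpleGraph V} {D : ℕ}
variable {T : Tr G D} {Y W K : Finset V} {q y x z e u : V} {m t k yl P : ℕ}

open Tr IsA

/-- The pair units of an internal head. -/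
noncomputable def iu (T : Tr G D) (y : V) : ℕ :=
  if T.ch y = ∅ then 0 else (T.Bd (T.p y) ∩ T.R).card

/-- The blank bonus. -/
noncomputable def rich (T : Tr G D) (y : V) : ℕ := if T.Bd y = ∅ then 1 else 0

/-- What a vertex pays besides its charges: `P` as a passage child, else a gift. -/
noncomputable def gv4 (T : Tr G D) (P : ℕ) (x : V) : ℕ :=
  if x = T.r then 0 else if x ∉ T.O (T.p x) then P else
    if InC T (T.p x) then min 4 (5 - tj T x) else 0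

/-- What a child of an owner receives. -/
noncomputable def rc (T : Tr G D) (y : V) : ℕ :=
  if InC T y then (if T.CX y ≠ ∅ then 4 else ∑ x ∈ T.ch y, min 4 (5 - tj T x)) else 0

/-- What a vertex of the cluster `H` costs. -/
noncomputable def X4 (T : Tr G D) (P : ℕ) (H : Finset V) (y : V) : ℕ :=
  (Ch T y).card + iu T y + gv4 T P y + (Dq T y ∩ H).card

/-- The numbers of a visited cluster. -/
structure Par4 (T : Tr G D) (Y W : Finset V) (q : V) (m t k yl : ℕ) : Prop where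
  m2 : 2 ≤ m
  m5 : m ≤ 5
  t1 : t ≤ 1
  k1 : k ≤ t
  k2 : k + yl ≤ 1
  ht : tw W = t
  hm : Y.card + m + t = D + 1
  hy : (if Y ⊆ T.R then 0 else 1) = yl
  hk : k = 1 → W ≠ ∅ ∧ q ∈ Y
  hk0 : k = 0 → W ≠ ∅ → q ∉ Y
  la : ((Y ∪ W) \ T.R).card = t + k + yl
  hA : (T.R ∩ (Y ∪ W)).card + m + k + yl = D + 1

theorem Fam.par4 (h : IsC T) (f : Fam T Y W q) (hD : 14 ≤ D) :
    ∃ m t k yl, Par4 T Y W q m t k yl := by
  have big := f.cl.big
  have small := f.cl.small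
  obtain ⟨s1, s2, -⟩ := f.shape h hD
  have c1 := card_union_of_disjoint f.disj
  have c2 := f.cardW
  have c3 := card_inter_add_card_sdiff (Y ∪ W) T.R
  rw [inter_comm] at c3
  have c4 : W = ∅ → q ∈ Y := fun e => by simpa [e] using f.mem
  refine ⟨D + 1 - tw W - Y.card, tw W, if W ≠ ∅ ∧ q ∈ Y then 1 else 0, _, ?_, ?_, ?_, ?_, ?_, rfl,
    ?_, rfl, fun e => by_contra fun n => by simp only [if_neg n] at e; omega,
    fun e a b => by rw [if_pos ⟨a, b⟩] at e; omega, ?_, ?_⟩ <;>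
  by_cases a : W = ∅ <;> by_cases b : q ∈ Y <;> by_cases c : Y ⊆ T.R <;>
  simp only [tw, a, b, c, ne_eq, not_true, not_false_iff, if_true, if_false,
    and_true, and_false, forall_true_left] at * <;> omega

theorem Dq_le4 (H : Finset V) : (Dq T y ∩ H).card ≤ (T.Dr y ∩ H).card :=
  card_le_card (inter_subset_inter_right ((filter_subset _ _).trans sdiff_subset))

theorem p_R (hy : y ∈ T.R) : T.p y ∈ T.R := by
  by_cases r : y = T.r
  exacts [by rw [r, T.p_r]; exact T.r_mem, T.p_mem y hy r]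

theorem gv4_cases (T : Tr G D) (P : ℕ) (x : V) :
    (x = T.r ∨ x ∉ T.O (T.p x)) ∧ gv4 T P x ≤ P ∨
      x ≠ T.r ∧ x ∈ T.O (T.p x) ∧ gv4 T P x ≤ min 4 (5 - tj T x) := by
  unfold gv4
  split_ifs with a b c
  exacts [.inl ⟨.inl a, Nat.zero_le _⟩, .inr ⟨a, b, le_rfl⟩, .inr ⟨a, b, Nat.zero_le _⟩,
    .inl ⟨.inr b, le_rfl⟩]

namespace IsC

theorem b2 (h : IsC T) (hy : y ∈ T.R) : (T.Bd y ∩ T.R).card ≤ 2 :=
  (card_le_card inter_subset_left).trans (h.card_Bd hy)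

theorem iu_le (h : IsC T) (hy : y ∈ T.R) : iu T y ≤ i2 T y := by
  have := h.b2 (p_R hy)
  unfold iu i2
  split_ifs <;> omega

theorem gen4 (h : IsC T) (hy : y ∈ T.R) : (Ch T y).card + iu T y ≤
    tj T y + (T.Bd y ∩ T.R).card + (T.Bd (T.p y) ∩ T.R).card := by
  have a := h.Ch_gen hy
  unfold iu tj
  by_cases l : T.ch y = ∅
  swap
  · rw [if_neg fun k => l k.1] at a
    rw [if_neg l]
    omega
  have s : Ch T y ⊆ T.tE (Cm T) (O0 T) y ∪ jm T y ∪ (T.Bd y ∩ T.R) ∪ (T.Bd (T.p y) ∩ T.R) :=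
    fun v k => by
      rcases h.Ch_cases hy k with k | k | k | ⟨-, -, k⟩
      · simp [k]
      · simp [k]
      · simp only [mem_union, k, or_true, true_or]
      · have r := (T.clo y hy v (mem_inter.1 k).1).1
        exact mem_union_right _ (mem_inter.2 ⟨h.H_Bd (p_R hy) r (mem_inter.1 k).2, r⟩)
  rw [if_pos l]
  exact (card_le_card s).trans ((card_union_le _ _).trans (add_le_add_left
    ((card_union_le _ _).trans (add_le_add_left (card_union_le _ _) _)) _))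

theorem tj_pass (h : IsC T) (hy : y ∈ T.R) (k : y = T.r ∨ y ∉ T.O (T.p y)) : tj T y = 0 := by
  rw [tj, (h.Ch_pass hy k).1, eq_empty_of_forall_notMem (s := T.tE (Cm T) (O0 T) y) fun v p =>
    have p := (mem_tE.1 p).1.2.1.1
    k.elim p.1 fun k => k p.2]
  rfl

theorem free4 (h : IsC T) (nt : T.NoTix) (hD : 14 ≤ D) (hP : P + 7 ≤ D) (hy : y ∈ T.R)
    (n : ¬ InH T y) : (Ch T y).card + iu T y + gv4 T P y ≤ D - 3 := by
  have a := h.gen4 hy
  have := h.b2 hy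
  have := h.b2 (p_R hy)
  have := h.t_few nt hy
  have := h.sparse hD hy fun Y W q f k => n ⟨Y, W, q, f, k⟩
  rcases gv4_cases T P y with ⟨b, c⟩ | ⟨-, -, c⟩
  · have := h.tj_pass hy b
    omega
  · omega

/-- `Ch_clq` without a charged `t`. -/
theorem Ch_clq4 (h : IsC T) (hy : y ∈ T.R) (hr : y ≠ T.r) (o : y ∈ T.O (T.p y)) (hK : IsClq G K)
    (r : ∀ v ∈ K, v ∉ T.Dm) (m : y ∈ K) (n : T.p y ∉ K)
    (f : ∃ w ∈ K, ∃ w' ∈ K, w ≠ w' ∧ ¬ G.Adj (T.p y) w ∧ ¬ G.Adj (T.p y) w')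
    (t : tj T y = (jm T y).card) :
    (Ch T y ∩ K).card + i2 T y ≤ 3 + (T.Bd y ∩ T.R ∩ K).card := by
  have hq := T.p_mem y hy hr
  obtain ⟨f1, f2⟩ := h.far2 hq hK r n f
  have a := h.adj_par hy hr o
  have t : T.tE (Cm T) (O0 T) y = ∅ := card_eq_zero.1 (by unfold tj at t; omega)
  have key : ∀ A : Finset V, y ∈ A → (∀ v ∈ K, v ∈ T.O (T.p y) → v ∈ A) →
      (T.ch y = ∅ → ∀ v ∈ K, G.Adj (T.p y) v → v ∈ A) →
      (Ch T y ∩ K).card + 1 ≤ A.card + (T.Bd y ∩ T.R ∩ K).card := fun A p0 p1 p2 => by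
    have c := card_erase_add_one p0
    have : (Ch T y ∩ K).card ≤ (A.erase y ∪ (T.Bd y ∩ T.R ∩ K)).card := card_le_card fun v k => by
      obtain ⟨k1, k2⟩ := mem_inter.1 k
      have ne := (h.Ch_adj hy k1).ne.symm
      simp only [mem_union, mem_erase, mem_inter]
      rcases mem_Ch.1 k1 with z | z | z | z
      exacts [absurd (t ▸ z) (notMem_empty _), .inl ⟨ne, p1 v k2 (mem_W.1 (WQ_sub z)).2.2.1⟩,
        .inr ⟨⟨h.nE_Bd hy z, (h.Ch_in hy k1).1⟩, k2⟩,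
        .inl ⟨ne, p2 z.1 v k2 (T.mem_H.1 (piQ_sub z.2)).1⟩]
    have := card_union_le (A.erase y) (T.Bd y ∩ T.R ∩ K)
    omega
  unfold i2
  split_ifs with e
  · have := key (K.filter (G.Adj (T.p y))) (mem_filter.2 ⟨m, a⟩)
      (fun v p k => mem_filter.2 ⟨p, T.O_adj _ hq v k⟩) fun _ v p k => mem_filter.2 ⟨p, k⟩
    omega
  · have := key (K.filter fun u => G.Adj (T.p y) u ∧ Uq G (T.col (T.p y)) (T.p y) u)
      (mem_filter.2 ⟨m, a, h.uq_O hq o⟩)
      (fun v p k => mem_filter.2 ⟨p, T.O_adj _ hq v k, h.uq_O hq k⟩) fun k => absurd k e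
    omega

end IsC

namespace Fam

theorem nInC (h : IsC T) (f : Fam T Y W q) (hD : 14 ≤ D) : ¬ InC T q :=
  fun ⟨Y', W', q', f', k1, k2⟩ => by
    obtain ⟨rfl, rfl, -⟩ := f.uniq h hD f' f.mem k2
    obtain ⟨-, b, c⟩ := T.mem_ch.1 k1
    exact absurd (c ▸ f'.mem) (f.pq b)

/-- The visited vertices that the owner hides. -/
theorem q_b (h : IsC T) (f : Fam T Y W q) (hD : 14 ≤ D) (p : Par4 T Y W q m t k yl) :
    (T.Bd q ∩ T.R).card + k + yl ≤ 2 ∧ (T.Dr q ∩ (Y ∪ W)).card ≤ k := by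
  have a := f.q_bd h hD
  have b := f.drq h hD
  have := p.k2
  rw [p.hy] at a
  by_cases c : k = 1
  · obtain ⟨w, w1, w2⟩ := f.twq h hD (p.hk c).2 (p.hk c).1
    have := h.Bd_one f.hq w2 (f.tw_late w1 (f.tw_ne (p.hk c).2 w1))
    split_ifs at b <;> omega
  · rw [if_neg fun z => p.hk0 (by omega) z.1 z.2] at b
    omega

/-- Neighbours of the owner outside. -/
theorem q_out (h : IsC T) (f : Fam T Y W q) (p : Par4 T Y W q m t k yl) :
    (nb G q \ (Y ∪ W)).card + k ≤ m + 1 := by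
  have a := f.out_le h f.mem
  have := p.hm
  have := p.ht
  have := p.k2
  by_cases c : k = 1
  · have := f.mem_out h (p.hk c).2
    have := f.cardW2
    have := p.k1
    have := p.t1
    omega
  · unfold tw at *
    split_ifs at * <;> omega

theorem q_cost (h : IsC T) (nt : T.NoTix) (f : Fam T Y W q) (hD : 15 ≤ D) (hP : P + 11 ≤ D)
    (p : Par4 T Y W q m t k yl) : X4 T P (Y ∪ W) q + 6 + yl ≤ D ∧
      (m = 2 → T.R ∩ (Y ∪ W) ⊆ insert q (T.ch q) → X4 T P (Y ∪ W) q + 7 ≤ D) := by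
  have hq := f.hq
  obtain ⟨a1, a2⟩ := f.q_b h (by omega) p
  have a3 := h.gen4 hq
  have a4 := h.b2 (p_R hq)
  have a5 := Dq_le4 (T := T) (y := q) (Y ∪ W)
  have a6 := h.t_few nt hq
  have a7 := h.iu_le hq
  have := p.k2
  have := p.m5
  unfold X4
  rcases gv4_cases T P q with ⟨b, c⟩ | ⟨b1, b2, c⟩
  · have := h.tj_pass hq b
    omega
  have pH := f.pq b1
  have o1 := h.Ch_out hq b1 b2 pH f.cl.real
  have o2 := f.q_out h p
  refine ⟨?_, fun m2 s => ?_⟩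
  · by_cases j : tj T q ≤ 5
    · omega
    have o3 := f.Ch_K h hq
    have o4 := h.Ch_clq4 hq b1 b2 f.clq f.kreal (mem_insert_self _ _) (f.kout pH)
      (f.kfar (T.p_mem q hq b1) pH) (by omega)
    have : (T.Bd q ∩ T.R ∩ insert q Y).card = 0 := card_eq_zero.2
      (eq_empty_of_forall_notMem fun v k => by
        obtain ⟨k1, k2⟩ := mem_inter.1 k
        obtain ⟨a, b, -⟩ := IsB.mem_Bd.1 (mem_inter.1 k1).1
        exact b (h.uq_O hq (f.vis v (mem_inter.1 k1).2 (mem_union_left _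
          ((mem_insert.1 k2).resolve_left a.ne.symm)) a.ne.symm).2.1))
    omega
  · have e : Ch T q \ (Y ∪ W) = Ch T q := sdiff_eq_self_of_disjoint (disjoint_left.2 fun v a b => by
      obtain ⟨c1, c2⟩ := h.Ch_in hq a
      rcases mem_insert.1 (s (mem_inter.2 ⟨c1, b⟩)) with z | z
      · exact (h.Ch_adj hq a).ne z.symm
      · exact O_ne_p c1 (T.mem_NT.1 c2).1 (T.mem_ch.1 z).2.2.symm)
    rw [e] at o1
    have : i2 T q ≤ 2 := by unfold i2; split_ifs <;> omega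
    omega

theorem e_cost4 (h : IsC T) (_ : T.NoTix) (f : Fam T Y W q) (hD : 15 ≤ D) (hP : P + 11 ≤ D)
    (p : Par4 T Y W q m t k yl) (hy : y ∈ T.R) (mm : y ∈ Y ∪ W) (ne : y ≠ q) (np : T.p y ≠ q) :
    X4 T P (Y ∪ W) y + 4 + 2 * k ≤ D := by
  obtain ⟨m2, m5, t1, kt, ky, ht, hm, hl, hk, -, la, hA⟩ := p
  obtain ⟨a1, a2, a3, a4⟩ := f.e_bd h (by omega) hy mm ne
  have a5 := h.gen4 hy
  have a6 := h.b2 (p_R hy)
  have a7 := Dq_le4 (T := T) (y := y) (Y ∪ W)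
  have a8 := h.iu_le hy
  have a9 : k = 1 → (T.Bd y ∩ T.R).card ≤ 1 ∧ (T.Bd y ∩ T.R ∩ (Y ∪ W)).card = 0 ∧
      (T.Dr y ∩ (Y ∪ W)).card ≤ 1 := fun z =>
    have := a4 (hk z).1 (hk z).2
    ⟨this.1, card_eq_zero.2 this.2.1, this.2.2⟩
  unfold X4
  rcases gv4_cases T P y with ⟨b, c⟩ | ⟨-, b, c⟩
  · have := h.tj_pass hy b
    omega
  · have := f.e_real h hy mm ne np b
    omega

theorem c_gv (h : IsC T) (f : Fam T Y W q) (hD : 14 ≤ D) (hy : y ∈ T.ch q) (mm : y ∈ Y ∪ W) :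
    gv4 T P y = 0 := by
  obtain ⟨-, yr, rfl⟩ := T.mem_ch.1 hy
  rw [gv4, if_neg yr, if_neg (not_not.2 (f.chq hy mm).2), if_neg (f.nInC h hD)]

theorem c_loud (h : IsC T) (nt : T.NoTix) (f : Fam T Y W q) (hD : 15 ≤ D)
    (p : Par4 T Y W q m t k yl) (hy : y ∈ T.ch q) (mm : y ∈ Y ∪ W) (l : Loud T (Y ∪ W) y) :
    X4 T P (Y ∪ W) y + 5 + k ≤ D := by
  obtain ⟨a1, -⟩ := f.q_b h (by omega) p
  obtain ⟨m2, m5, t1, kt, ky, ht, hm, hl, hk, -, la, hA⟩ := p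
  obtain ⟨yR, -, yp⟩ := T.mem_ch.1 hy
  have a0 := f.c_gv (P := P) h (by omega) hy mm
  obtain ⟨a3, a4, -⟩ := f.c_dr h (by omega) hy mm
  have a7 := Dq_le4 (T := T) (y := y) (Y ∪ W)
  unfold X4
  by_cases s : jm T y ⊆ Y ∪ W
  · have := f.loud_few h nt hy mm l s
    have := h.gen4 yR
    rw [yp] at this
    omega
  · have := f.c_two h (by omega) hy mm s
    have := f.c_out h hy mm
    have := card_inter_add_card_sdiff (Ch T y) (Y ∪ W)
    have : iu T y ≤ (T.Bd q ∩ T.R).card := by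
      rw [iu, yp]
      split_ifs <;> omega
    omega

theorem c_quiet4 (h : IsC T) (nt : T.NoTix) (f : Fam T Y W q) (hD : 15 ≤ D)
    (p : Par4 T Y W q m t k yl) (hy : y ∈ T.ch q) (mm : y ∈ Y ∪ W) (l : ¬ Loud T (Y ∪ W) y) :
    X4 T P (Y ∪ W) y + min (m - 2) (t + k + yl) + 3 ≤ D + rich T y + rc T y ∧
      X4 T P (Y ∪ W) y + k + yl + 3 ≤ D + rich T y + rc T y + (Dq T y ∩ (Y ∪ W)).card := by
  obtain ⟨a1, -⟩ := f.q_b h (by omega) p
  obtain ⟨m2, m5, t1, kt, ky, ht, hm, hl, hk, -, la, hA⟩ := p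
  obtain ⟨yR, yr, yp⟩ := T.mem_ch.1 hy
  have a0 := f.c_gv (P := P) h (by omega) hy mm
  obtain ⟨a3, a4, -⟩ := f.c_dr h (by omega) hy mm
  have a5 := f.c_vis h hy mm
  have a6 := card_inter_add_card_sdiff (Ch T y) (Y ∪ W)
  have a7 := Dq_le4 (T := T) (y := y) (Y ∪ W)
  have a8 := Fam.c_quiet h yR l
  have a9 := (Fam.mem_quiet h yR l).1
  unfold X4
  by_cases e : T.ch y = ∅
  · rw [i2, if_pos e] at a9
    rw [iu, if_pos e]
    omega
  rw [iu, if_neg e, yp, rc, if_pos (show InC T y from ⟨Y, W, q, f, hy, mm⟩)]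
  split_ifs with c
  · omega
  obtain ⟨x, hx⟩ := nonempty_iff_ne_empty.2 e
  have b1 : min 4 (5 - tj T x) ≤ ∑ x ∈ T.ch y, min 4 (5 - tj T x) :=
    single_le_sum (f := fun x => min 4 (5 - tj T x)) (fun _ _ => Nat.zero_le _) hx
  have s : ∀ v ∈ Ch T y, v ∈ T.O y → v ∈ Y ∪ W := fun v a o => by_contra fun n => by
    obtain ⟨c1, c2⟩ := h.Ch_in yR a
    exact (IsB.mem_Bd.1 (h.Ch_below yR a (by_contra fun z =>
      l ⟨v, c1, n, (T.mem_NT.1 c2).1, z⟩)).1).2.1 (h.uq_O yR o)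
  have b2 := f.pair h nt (by omega) hy mm (fun v a =>
    s v (mem_Ch.2 (.inr (.inl (mem_inter.1 a).1))) (mem_inter.1 a).2) hx
  have b3 := h.card_O2 yR
  rw [if_pos ⟨yr, yp.symm ▸ (f.chq hy mm).2⟩] at b3
  have b4 := h.Ch_gen yR
  rw [if_neg fun z => e z.1, eq_empty_of_forall_notMem (s := T.tE (Cm T) (O0 T) y) fun v a => by
    have o := (T.mem_NT.1 (mem_tE.1 a).1.1).1
    exact (h.t_off yR o (mem_tE.1 a).1.2.1).1 (yp.symm ▸ (f.vis v (T.clo y yR v o).1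
      (s v (mem_Ch.2 (.inl a)) o) (yp ▸ O_ne_p yR o)).2.1), card_empty] at b4
  have b5 := card_le_card (inter_subset_left : T.Dr y ∩ (Y ∪ W) ⊆ _)
  unfold rich
  split_ifs at b3 ⊢ <;> omega

end Fam

end Pool.Agent.Lib.MP_12eaff_co.FB
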